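import Pool.Agent.H78.RC.Targets
import Pool.Agent.H83.LI.DLF

/-!
# Theorem (RZ) for the class of the Möbius function (MP_c59857_nt), row DLC: the multiples of a
prime, filters
-/

set_option autoImplicit false

namespace Pool.Agent.H3.RC

open Finset Pool.Agent.H18.MR Pool.Agent.H93.DE Pool.Agent.H6.N4D Pool.Agent.H93
  Pool.Agent.H93.ES Pool.Agent.H28.NW Pool.Agent.H87.QP Pool.Agent.H78.RC

/-- the square of the filtered sequence -/
noncomputable def gc (f : ℕ → ℂ) (H q : ℕ) (c : ℕ → ℂ) (m : ℕ) : ℝ :=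
  ‖∑ h ∈ range (H + 1), c h * f (m + q * h)‖ ^ 2

lemma gc_nonneg (f : ℕ → ℂ) (H q : ℕ) (c : ℕ → ℂ) (m : ℕ) : 0 ≤ gc f H q c m := by
  unfold gc; positivity

lemma gc_le {f : ℕ → ℂ} (hl : ∀ n, ‖f n‖ ≤ 1) (H q : ℕ) {c : ℕ → ℂ} (hc : ∀ h, ‖c h‖ ≤ 1)
    (m : ℕ) : gc f H q c m ≤ ((H : ℝ) + 1) ^ 2 := by
  unfold gc
  have h1 : ‖∑ h ∈ range (H + 1), c h * f (m + q * h)‖ ≤ (H : ℝ) + 1 := by
    refine (norm_sum_le _ _).trans ?_
    calc ∑ h ∈ range (H + 1), ‖c h * f (m + q * h)‖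
        ≤ ∑ _h ∈ range (H + 1), (1 : ℝ) := by
          apply sum_le_sum
          intro h _
          rw [norm_mul]
          exact mul_le_one₀ (hc h) (norm_nonneg _) (hl _)
      _ = (H : ℝ) + 1 := by simp
  exact pow_le_pow_left₀ (norm_nonneg _) h1 2

lemma FC_eq (f : ℕ → ℂ) (H q T n : ℕ) (c : ℕ → ℂ) :
    FC f H q T n c = (∑ m ∈ Ioc n (n + T), gc f H q c m) / T := rfl

lemma FC_nonneg (f : ℕ → ℂ) (H q T n : ℕ) (c : ℕ → ℂ) : 0 ≤ FC f H q T n c := by
  rw [FC_eq]
  exact div_nonneg (sum_nonneg fun m _ => gc_nonneg _ _ _ _ _) (Nat.cast_nonneg _)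

/-- the mixed terms -/
lemma mixed {f : ℕ → ℂ} (hl : ∀ n, ‖f n‖ ≤ 1) {q : ℕ} (hq : 0 < q) (T n h k : ℕ)
    (hT : 0 < T) :
    ‖∑ m ∈ Ioc n (n + T), f (m + q * h) * starRingEnd ℂ (f (m + q * h + q * k)) *
      ((EB.D q m : ℝ) : ℂ)‖ ≤ T * ‖tc f q T k n‖ + 2 * (q * (2 * h + 1)) := by
  set u : ℕ → ℂ := fun m => f m * starRingEnd ℂ (f (m + q * k)) * ((EB.D q m : ℝ) : ℂ) with hu
  have e1 : ∑ m ∈ Ioc n (n + T), f (m + q * h) * starRingEnd ℂ (f (m + q * h + q * k)) *
      ((EB.D q m : ℝ) : ℂ) = ∑ m ∈ Ioc (n + q * h) (n + T + q * h), u m := by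
    symm
    apply sum_nbij' (fun m => m - q * h) (fun m => m + q * h)
    · intro m hm; rw [mem_Ioc] at hm ⊢; omega
    · intro m hm; rw [mem_Ioc] at hm ⊢; omega
    · intro m hm; rw [mem_Ioc] at hm; show m - q * h + q * h = m; omega
    · intro m _; simp
    · intro m hm
      rw [mem_Ioc] at hm
      have e : m - q * h + q * h = m := by omega
      have e' : EB.D q (m - q * h) = EB.D q m := by
        rw [← Pool.Agent.H83.LI.D_add q (m - q * h) h, e]
      show f m * starRingEnd ℂ (f (m + q * k)) * ((EB.D q m : ℝ) : ℂ) = _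
      rw [e, e']
  have hub : ∀ m, ‖u m‖ ≤ |EB.D q m| := by
    intro m
    rw [hu]
    simp only
    rw [norm_mul, norm_mul, Complex.norm_conj, Complex.norm_real, Real.norm_eq_abs]
    calc ‖f m‖ * ‖f (m + q * k)‖ * |EB.D q m| ≤ 1 * 1 * |EB.D q m| := by
          gcongr
          · exact hl _
          · exact hl _
      _ = _ := by ring
  have e2 : ∑ m ∈ Ioc n (n + T), u m = T * tc f q T k n := by
    unfold tc
    rw [mul_div_cancel₀ _ (by exact_mod_cast hT.ne')]
  have hb : ∀ b, ‖∑ m ∈ Ioc b (b + q * h), u m‖ ≤ (q : ℝ) * (2 * h + 1) := fun b =>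
    ((norm_sum_le _ _).trans (sum_le_sum fun m _ => hub m)).trans
      (Pool.Agent.H83.LI.sum_abs_D hq b h)
  have e3 : ∑ m ∈ Ioc (n + q * h) (n + T + q * h), u m =
      ∑ m ∈ Ioc n (n + T), u m + ∑ m ∈ Ioc (n + T) (n + T + q * h), u m -
        ∑ m ∈ Ioc n (n + q * h), u m := by
    have a1 := sum_Ioc_consecutive u (Nat.le_add_right n (q * h))
      (show n + q * h ≤ n + T + q * h by omega)
    have a2 := sum_Ioc_consecutive u (Nat.le_add_right n T)
      (show n + T ≤ n + T + q * h by omega)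
    linear_combination a1 - a2
  rw [e1, e3, e2]
  have h1 := hb (n + T)
  have h2 := hb n
  calc ‖(T : ℂ) * tc f q T k n + ∑ m ∈ Ioc (n + T) (n + T + q * h), u m -
        ∑ m ∈ Ioc n (n + q * h), u m‖ ≤ ‖(T : ℂ) * tc f q T k n‖ +
        ‖∑ m ∈ Ioc (n + T) (n + T + q * h), u m‖ + ‖∑ m ∈ Ioc n (n + q * h), u m‖ := by
        refine (norm_sub_le _ _).trans ?_
        gcongr
        exact norm_add_le _ _
    _ ≤ T * ‖tc f q T k n‖ + q * (2 * h + 1) + q * (2 * h + 1) := by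
        rw [norm_mul, Complex.norm_natCast]
        gcongr
    _ = _ := by ring

lemma gc_expand (f : ℕ → ℂ) (H q : ℕ) (c : ℕ → ℂ) (m : ℕ) :
    ((gc f H q c m : ℝ) : ℂ) = ∑ h ∈ range (H + 1), ∑ h' ∈ range (H + 1),
      (c h * starRingEnd ℂ (c h')) * (f (m + q * h) * starRingEnd ℂ (f (m + q * h'))) := by
  unfold gc
  rw [← Complex.normSq_eq_norm_sq, ← Complex.mul_conj, map_sum, sum_mul_sum]
  refine sum_congr rfl fun h _ => sum_congr rfl fun h' _ => ?_
  rw [map_mul]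
  ring

/-- the number of the multiples of `q` in a shifted interval -/
lemma card_mult {q : ℕ} (hq : 0 < q) (a N h : ℕ) :
    ∑ m ∈ Ioc a (a + N), (if q ∣ m + h then (1 : ℝ) else 0) ≤ (N : ℝ) / q + 1 := by
  have e1 : ∑ m ∈ Ioc a (a + N), (if q ∣ m + h then (1 : ℝ) else 0) =
      ∑ m ∈ Ioc (a + h) (a + h + N), (if q ∣ m then (1 : ℝ) else 0) := by
    apply sum_nbij' (fun m => m + h) (fun m => m - h)
    · intro m hm; rw [mem_Ioc] at hm ⊢; omega
    · intro m hm; rw [mem_Ioc] at hm ⊢; omega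
    · intro m _; simp
    · intro m hm; rw [mem_Ioc] at hm; show m - h + h = m; omega
    · intro m _; rfl
  rw [e1, Pool.Agent.H83.LI.sum_mult hq (a + h) (a + h + N) (fun _ => (1 : ℝ))]
  rw [sum_const, Nat.card_Ioc, nsmul_eq_mul, mul_one]
  have h1 := Pool.Agent.H83.LI.div_add_le hq (a + h) N
  have h2 : (a + h + N) / q - (a + h) / q ≤ N / q + 1 := by
    have h3 : ∀ A B C : ℕ, A ≤ B + C + 1 → A - B ≤ C + 1 := by intro A B C _; omega
    exact h3 _ _ _ h1
  calc (((a + h + N) / q - (a + h) / q : ℕ) : ℝ) ≤ ((N / q + 1 : ℕ) : ℝ) := by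
        exact_mod_cast h2
    _ = ((N / q : ℕ) : ℝ) + 1 := by push_cast; ring
    _ ≤ (N : ℝ) / q + 1 := by
        have := Nat.cast_div_le (α := ℝ) (m := N) (n := q)
        linarith

/-- Row DLC. -/
theorem pf_DLC : T_DLC := by
  intro H
  refine ⟨16 * ((H : ℝ) + 1) ^ 3, by positivity, ?_⟩
  intro D f q T n c hL hqp hqD hqT hc
  have hq : 0 < q := hqp.pos
  have hT : 0 < T := lt_of_lt_of_le hq hqT
  have hT0 : (0 : ℝ) < T := by exact_mod_cast hT
  have hq0 : (0 : ℝ) < q := by exact_mod_cast hq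
  have hq1 : (1 : ℝ) ≤ q := by exact_mod_cast hq
  have hl := hL.le
  obtain ⟨u, hu1, hu⟩ := hL.dil q hqp hqD
  set G := gc f H q c with hG
  set G' := gc f H 1 c with hG'
  have hH0 : (0 : ℝ) ≤ H := Nat.cast_nonneg _
  have hTq : 0 < T / q := Nat.div_pos hqT hq
  -- the multiples
  have hGG : ∀ m, 1 ≤ m → G (q * m) ≤ G' m +
      ((H : ℝ) + 1) ^ 2 * ∑ h ∈ range (H + 1), (if q ∣ m + h then (1 : ℝ) else 0) := by
    intro m hm
    by_cases hbad : ∃ h ∈ range (H + 1), q ∣ m + h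
    · obtain ⟨h, hh, hd⟩ := hbad
      have h1 : (1 : ℝ) ≤ ∑ h ∈ range (H + 1), (if q ∣ m + h then (1 : ℝ) else 0) := by
        have h2 := single_le_sum (f := fun h => if q ∣ m + h then (1 : ℝ) else 0)
          (fun i _ => by positivity) hh
        simp only [if_pos hd] at h2
        exact h2
      have h2 := gc_le hl H q hc (q * m)
      have h3 := gc_nonneg f H 1 c m
      have h4 : (0 : ℝ) ≤ ((H : ℝ) + 1) ^ 2 := by positivity
      have h5 := mul_le_mul_of_nonneg_left h1 h4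
      rw [hG, hG']
      linarith
    · push Not at hbad
      have e : G (q * m) = G' m := by
        rw [hG, hG']
        unfold gc
        have : ∑ h ∈ range (H + 1), c h * f (q * m + q * h) =
            u * ∑ h ∈ range (H + 1), c h * f (m + 1 * h) := by
          rw [mul_sum]
          apply sum_congr rfl
          intro h hh
          rw [← mul_add, hu (m + h) (by omega) (hbad h hh), one_mul]
          ring
        rw [this, norm_mul, hu1, one_mul]
      rw [e]
      have : 0 ≤ ((H : ℝ) + 1) ^ 2 * ∑ h ∈ range (H + 1), (if q ∣ m + h then (1 : ℝ) else 0) := by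
        positivity
      linarith
  have h1 : ∑ m ∈ Ioc n (n + T), G m * (EB.D q m + 1) ≤
      T * FC f H 1 (T / q) (n / q) c + q * ((H : ℝ) + 1) ^ 2 +
        ((H : ℝ) + 1) ^ 3 * (T / q + 2 * q) := by
    have e1 : ∑ m ∈ Ioc n (n + T), G m * (EB.D q m + 1) =
        q * ∑ m ∈ Ioc (n / q) ((n + T) / q), G (q * m) := by
      have e2 : ∀ m ∈ Ioc n (n + T), G m * (EB.D q m + 1) = if q ∣ m then q * G m else 0 := by
        intro m _
        rw [Pool.Agent.H83.LI.EBD_eq]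
        split_ifs <;> ring
      rw [sum_congr rfl e2, Pool.Agent.H83.LI.sum_mult hq n (n + T) (fun m => q * G m), mul_sum]
    rw [e1]
    have h2 : ∑ m ∈ Ioc (n / q) ((n + T) / q), G (q * m) ≤
        ∑ m ∈ Ioc (n / q) (n / q + T / q), G' m + ((H : ℝ) + 1) ^ 2 +
          ((H : ℝ) + 1) ^ 3 * ((((T / q : ℕ) : ℝ) + 1) / q + 1) := by
      calc ∑ m ∈ Ioc (n / q) ((n + T) / q), G (q * m)
          ≤ ∑ m ∈ Ioc (n / q) (n / q + (T / q + 1)), G (q * m) := by
            apply sum_le_sum_of_subset_of_nonneg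
            · exact Ioc_subset_Ioc_right (Pool.Agent.H83.LI.div_add_le hq n T)
            · intro m _ _; exact gc_nonneg _ _ _ _ _
        _ ≤ ∑ m ∈ Ioc (n / q) (n / q + (T / q + 1)), (G' m +
            ((H : ℝ) + 1) ^ 2 * ∑ h ∈ range (H + 1), (if q ∣ m + h then (1 : ℝ) else 0)) := by
            apply sum_le_sum
            intro m hm
            rw [mem_Ioc] at hm
            exact hGG m ((Nat.zero_le _).trans_lt hm.1)
        _ = ∑ m ∈ Ioc (n / q) (n / q + T / q), G' m + G' (n / q + T / q + 1) +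
            ((H : ℝ) + 1) ^ 2 * ∑ h ∈ range (H + 1),
              ∑ m ∈ Ioc (n / q) (n / q + (T / q + 1)), (if q ∣ m + h then (1 : ℝ) else 0) := by
            rw [sum_add_distrib, ← mul_sum, sum_comm]
            congr 1
            rw [← sum_Ioc_consecutive G' (Nat.le_add_right (n / q) (T / q))
              (show n / q + T / q ≤ n / q + (T / q + 1) by omega)]
            congr 1
            rw [← add_assoc]
            simp
        _ ≤ _ := by
            have h3 := gc_le hl H 1 hc (n / q + T / q + 1)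
            have h4 : ∑ h ∈ range (H + 1), ∑ m ∈ Ioc (n / q) (n / q + (T / q + 1)),
                (if q ∣ m + h then (1 : ℝ) else 0) ≤
                ((H : ℝ) + 1) * ((((T / q : ℕ) : ℝ) + 1) / q + 1) := by
              calc ∑ h ∈ range (H + 1), ∑ m ∈ Ioc (n / q) (n / q + (T / q + 1)),
                  (if q ∣ m + h then (1 : ℝ) else 0)
                  ≤ ∑ _h ∈ range (H + 1), ((((T / q + 1 : ℕ) : ℝ)) / q + 1) :=
                    sum_le_sum fun h _ => card_mult hq _ _ _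
                _ = _ := by
                    rw [sum_const, card_range, nsmul_eq_mul]
                    push_cast
                    ring
            have h5 := mul_le_mul_of_nonneg_left h4 (show (0 : ℝ) ≤ ((H : ℝ) + 1) ^ 2 by positivity)
            have e : ((H : ℝ) + 1) ^ 2 * (((H : ℝ) + 1) * ((((T / q : ℕ) : ℝ) + 1) / q + 1)) =
                ((H : ℝ) + 1) ^ 3 * ((((T / q : ℕ) : ℝ) + 1) / q + 1) := by ring
            rw [e] at h5
            linarith
    have h3 : ∑ m ∈ Ioc (n / q) (n / q + T / q), G' m =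
        ((T / q : ℕ) : ℝ) * FC f H 1 (T / q) (n / q) c := by
      rw [FC_eq, mul_div_cancel₀ _ (by exact_mod_cast hTq.ne')]
    have h4 : (q : ℝ) * ((T / q : ℕ) : ℝ) ≤ T := by exact_mod_cast Nat.mul_div_le T q
    have h5 := FC_nonneg f H 1 (T / q) (n / q) c
    have h6 : (q : ℝ) * ((((T / q : ℕ) : ℝ) + 1) / q + 1) ≤ T / q + 2 * q := by
      have h7 : ((T / q : ℕ) : ℝ) ≤ (T : ℝ) / q := Nat.cast_div_le
      have e : (q : ℝ) * ((((T / q : ℕ) : ℝ) + 1) / q + 1) = ((T / q : ℕ) : ℝ) + 1 + q := by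
        field_simp
      rw [e]
      linarith
    calc (q : ℝ) * ∑ m ∈ Ioc (n / q) ((n + T) / q), G (q * m)
        ≤ q * (((T / q : ℕ) : ℝ) * FC f H 1 (T / q) (n / q) c + ((H : ℝ) + 1) ^ 2 +
          ((H : ℝ) + 1) ^ 3 * ((((T / q : ℕ) : ℝ) + 1) / q + 1)) := by
          rw [← h3]; gcongr
      _ = (q * ((T / q : ℕ) : ℝ)) * FC f H 1 (T / q) (n / q) c + q * ((H : ℝ) + 1) ^ 2 +
          ((H : ℝ) + 1) ^ 3 * (q * ((((T / q : ℕ) : ℝ) + 1) / q + 1)) := by
          ring
      _ ≤ _ := by gcongr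
  -- the rest
  set τ : ℝ := ∑ k ∈ range (H + 1), ‖tc f q T k n‖ with hτ
  have hτ0 : 0 ≤ τ := sum_nonneg fun k _ => norm_nonneg _
  have hτk : ∀ k, k ≤ H → ‖tc f q T k n‖ ≤ τ := fun k h2 =>
    single_le_sum (f := fun k => ‖tc f q T k n‖) (fun k _ => norm_nonneg _)
      (mem_range.2 (by omega))
  have hS : ∀ h ∈ range (H + 1), ∀ h' ∈ range (H + 1),
      ‖∑ m ∈ Ioc n (n + T), f (m + q * h) * starRingEnd ℂ (f (m + q * h')) *
        ((EB.D q m : ℝ) : ℂ)‖ ≤ T * τ + 6 * q * ((H : ℝ) + 1) := by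
    intro h hh h' hh'
    rw [mem_range] at hh hh'
    rcases le_total h h' with hlt | hgt
    · have e : ∀ m, f (m + q * h') = f (m + q * h + q * (h' - h)) := by
        intro m
        congr 1
        rw [add_assoc, ← mul_add, Nat.add_sub_cancel' hlt]
      simp only [e]
      refine (mixed hl hq T n h (h' - h) hT).trans ?_
      have h2 := hτk (h' - h) (by omega)
      have h3 : (h : ℝ) ≤ H := by exact_mod_cast (by omega : h ≤ H)
      have h4 : (T : ℝ) * ‖tc f q T (h' - h) n‖ ≤ T * τ := by gcongr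
      nlinarith
    · have e : ∑ m ∈ Ioc n (n + T), f (m + q * h) * starRingEnd ℂ (f (m + q * h')) *
          ((EB.D q m : ℝ) : ℂ) = starRingEnd ℂ (∑ m ∈ Ioc n (n + T), f (m + q * h') *
            starRingEnd ℂ (f (m + q * h' + q * (h - h'))) * ((EB.D q m : ℝ) : ℂ)) := by
        rw [map_sum]
        refine sum_congr rfl fun m _ => ?_
        rw [map_mul, map_mul, Complex.conj_conj, Complex.conj_ofReal, add_assoc m (q * h'),
          ← mul_add, Nat.add_sub_cancel' hgt]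
        ring
      rw [e, Complex.norm_conj]
      refine (mixed hl hq T n h' (h - h') hT).trans ?_
      have h2 := hτk (h - h') (by omega)
      have h3 : (h' : ℝ) ≤ H := by exact_mod_cast (by omega : h' ≤ H)
      have h4 : (T : ℝ) * ‖tc f q T (h - h') n‖ ≤ T * τ := by gcongr
      nlinarith
  have h2 : |∑ m ∈ Ioc n (n + T), G m * EB.D q m| ≤
      ((H : ℝ) + 1) ^ 2 * (T * τ + 6 * q * ((H : ℝ) + 1)) := by
    have e1 : ((∑ m ∈ Ioc n (n + T), G m * EB.D q m : ℝ) : ℂ) =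
        ∑ h ∈ range (H + 1), ∑ h' ∈ range (H + 1),
        (c h * starRingEnd ℂ (c h')) *
          ∑ m ∈ Ioc n (n + T), f (m + q * h) * starRingEnd ℂ (f (m + q * h')) *
            ((EB.D q m : ℝ) : ℂ) := by
      rw [hG]
      push_cast
      simp only [gc_expand, sum_mul, mul_sum]
      rw [sum_comm]
      apply sum_congr rfl
      intro h _
      rw [sum_comm]
      apply sum_congr rfl
      intro h' _
      apply sum_congr rfl
      intro m _
      ring
    have e2 : |∑ m ∈ Ioc n (n + T), G m * EB.D q m| =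
        ‖((∑ m ∈ Ioc n (n + T), G m * EB.D q m : ℝ) : ℂ)‖ := by
      rw [Complex.norm_real, Real.norm_eq_abs]
    rw [e2, e1]
    refine (norm_sum_le _ _).trans ?_
    calc ∑ h ∈ range (H + 1), ‖∑ h' ∈ range (H + 1), (c h * starRingEnd ℂ (c h')) *
          ∑ m ∈ Ioc n (n + T), f (m + q * h) * starRingEnd ℂ (f (m + q * h')) *
            ((EB.D q m : ℝ) : ℂ)‖
        ≤ ∑ _h ∈ range (H + 1), ∑ _h' ∈ range (H + 1), (T * τ + 6 * q * ((H : ℝ) + 1)) := by
          apply sum_le_sum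
          intro h hh
          refine (norm_sum_le _ _).trans ?_
          apply sum_le_sum
          intro h' hh'
          rw [norm_mul]
          have h3 : ‖c h * starRingEnd ℂ (c h')‖ ≤ 1 := by
            rw [norm_mul, Complex.norm_conj]
            exact mul_le_one₀ (hc h) (norm_nonneg _) (hc h')
          calc _ ≤ 1 * (T * τ + 6 * q * ((H : ℝ) + 1)) :=
                mul_le_mul h3 (hS h hh h' hh') (norm_nonneg _) zero_le_one
            _ = _ := one_mul _
      _ = _ := by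
          simp only [sum_const, card_range, nsmul_eq_mul]
          push_cast
          ring
  have h3 : ∑ m ∈ Ioc n (n + T), G m = ∑ m ∈ Ioc n (n + T), G m * (EB.D q m + 1) -
      ∑ m ∈ Ioc n (n + T), G m * EB.D q m := by
    rw [← sum_sub_distrib]
    apply sum_congr rfl
    intro m _
    ring
  rw [FC_eq, ← hG, div_le_iff₀ hT0, h3]
  have h4 := neg_le_of_abs_le h2
  have hH1 : (1 : ℝ) ≤ (H : ℝ) + 1 := by linarith
  have h5 : ((H : ℝ) + 1) ^ 2 ≤ ((H : ℝ) + 1) ^ 3 := pow_le_pow_right₀ hH1 (by norm_num)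
  have h6 : ((H : ℝ) + 1) ^ 2 * (T * τ) ≤ ((H : ℝ) + 1) ^ 3 * (T * τ) := by gcongr
  have h8 : (q : ℝ) * ((H : ℝ) + 1) ^ 2 ≤ q * ((H : ℝ) + 1) ^ 3 := by gcongr
  have h9 : (FC f H 1 (T / q) (n / q) c + 16 * ((H : ℝ) + 1) ^ 3 * (τ + q / T + 1 / q)) * T =
      T * FC f H 1 (T / q) (n / q) c + 16 * (((H : ℝ) + 1) ^ 3 * (T * τ)) +
        16 * (q * ((H : ℝ) + 1) ^ 3) + 16 * (((H : ℝ) + 1) ^ 3 * (T / q)) := by
    have e : (q : ℝ) / T * T = q := div_mul_cancel₀ _ hT0.ne'
    calc (FC f H 1 (T / q) (n / q) c + 16 * ((H : ℝ) + 1) ^ 3 * (τ + q / T + 1 / q)) * T =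
        T * FC f H 1 (T / q) (n / q) c + 16 * (((H : ℝ) + 1) ^ 3 * (T * τ)) +
        16 * ((q / T * T) * ((H : ℝ) + 1) ^ 3) + 16 * (((H : ℝ) + 1) ^ 3 * (T / q)) := by ring
      _ = _ := by rw [e]
  rw [h9]
  have h10 : ((H : ℝ) + 1) ^ 2 * (T * τ + 6 * q * ((H : ℝ) + 1)) =
      ((H : ℝ) + 1) ^ 2 * (T * τ) + 6 * (q * ((H : ℝ) + 1) ^ 3) := by ring
  have h11 : 0 ≤ q * ((H : ℝ) + 1) ^ 3 := by positivity
  have h12 : 0 ≤ ((H : ℝ) + 1) ^ 3 * (T / q) := by positivity
  have h13 : 0 ≤ ((H : ℝ) + 1) ^ 3 * (T * τ) := by positivity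
  have h14 : ((H : ℝ) + 1) ^ 3 * ((T : ℝ) / q + 2 * q) =
      ((H : ℝ) + 1) ^ 3 * (T / q) + 2 * (q * ((H : ℝ) + 1) ^ 3) := by ring
  rw [h10] at h4
  rw [h14] at h1
  linarith

end Pool.Agent.H3.RC
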