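import Pool.Agent.H28.RC.Targets4
import Pool.Agent.H84.RC.RCF
import Pool.Agent.H36.RT.DZR

/-!
# Module MNH: the mean of an induced character over the Frobenius elements
-/

set_option autoImplicit false

open NumberField Filter Topology

namespace Pool.Agent.H3.RC

open Pool.Agent.H28.RC Pool.Agent.H29.RT

/-- a function whose series over the primes has a limit at `1` has mean `0` -/
lemma mean_zero (w : ℕ → ℝ) (C c : ℝ) (hC : ∀ p : Nat.Primes, |w p| ≤ C)
    (hc : Tendsto (fun s : ℝ => ∑' p : Nat.Primes, w p * (p : ℝ) ^ (-s)) (𝓝[>] 1) (𝓝 c)) :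
    Mean w 0 := by
  intro s hs
  have hs0 : (0 : ℝ) < s := by exact_mod_cast hs
  have hsum : ∀ x : ℝ, 1 < x → Summable fun p : Nat.Primes => w p * (p : ℝ) ^ (-x) := by
    intro x hx
    refine Summable.of_norm_bounded ((Pool.Agent.H36.RT.summable_px hx).mul_left C) fun p => ?_
    rw [norm_mul, Real.norm_eq_abs, Real.norm_eq_abs,
      abs_of_nonneg (Real.rpow_nonneg (Nat.cast_nonneg _) _)]
    exact mul_le_mul_of_nonneg_right (hC p) (Real.rpow_nonneg (Nat.cast_nonneg _) _)
  have ht : ∀ a : ℝ, 0 < a → Tendsto (fun L : ℝ => 1 + a / L) atTop (𝓝[>] 1) := by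
    intro a ha
    rw [tendsto_nhdsWithin_iff]
    refine ⟨?_, ?_⟩
    · have := (tendsto_const_nhds (x := a)).div_atTop tendsto_id (l := atTop)
      simpa using (tendsto_const_nhds (x := (1 : ℝ))).add this
    · filter_upwards [eventually_gt_atTop 0] with L hL
      have : 0 < a / L := by positivity
      exact Set.mem_Ioi.2 (by linarith)
  have h1 := (hc.comp (ht s hs0)).sub (hc.comp (ht 1 one_pos))
  have h3 : c - c = -(0 * Real.log s) := by ring
  rw [h3] at h1
  refine h1.congr' ?_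
  filter_upwards [eventually_gt_atTop 0] with L hL
  simp only [Function.comp_apply]
  have hx1 : (1 : ℝ) < 1 + s / L := by
    have : 0 < (s : ℝ) / L := by positivity
    linarith
  have hx2 : (1 : ℝ) < 1 + 1 / L := by
    have : 0 < 1 / L := by positivity
    linarith
  rw [← (hsum _ hx1).tsum_sub (hsum _ hx2)]
  exact tsum_congr fun p => by ring

lemma surj {K : Type} [Field K] [NumberField K] (H : Subgroup (K ≃ₐ[ℚ] K)) (h : K ≃ₐ[ℚ] K)
    (hh : h ∈ H) : ∃ g : K ≃ₐ[IntermediateField.fixedField H] K, g.restrictScalars ℚ = h := by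
  refine ⟨AlgEquiv.ofRingEquiv (f := h.toRingEquiv) fun x => ?_, ?_⟩
  · exact (IntermediateField.mem_fixedField_iff H x.1).1 x.2 h hh
  · ext x
    rfl

theorem pf_MNH : T_H1L → T_LGL → T_NV1 → T_RC1 → T_RC2 → T_SPA →
    Pool.Agent.H29.RT.T_DZR → T_MNH := by
  intro hH1L hLGL hNV1 hRC1 hRC2 hSPA hDZR K _ _ _ H lam
  by_cases hl : lam = 1
  · obtain ⟨⟨C, hC⟩, -, -⟩ := hLGL (IntermediateField.fixedField H)
      (triv (IntermediateField.fixedField H))
    obtain ⟨-, hsp⟩ := hSPA (IntermediateField.fixedField H)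
    obtain ⟨B', hB'⟩ := hRC2 K H lam (triv (IntermediateField.fixedField H)) ∅ (by
      intro P _ hP0 _ h hm _
      rw [hl]
      change (if P = ⊥ then (0 : ℂ) else 1) = _
      rw [if_neg hP0]
      simp)
    refine ⟨fun p => (Pool.Agent.H25.HK.spf (IntermediateField.fixedField H) p 1 : ℝ), B',
      ⟨C, fun p => ?_⟩, ?_, ?_⟩
    · have h1 := hC p
      rw [hsp p 1 p.2 le_rfl, Complex.norm_natCast] at h1
      rwa [abs_of_nonneg (Nat.cast_nonneg _)]
    · rw [if_pos hl]
      exact hDZR (IntermediateField.fixedField H)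
    · intro p hp hpB Q hQ hpQ φ hφ
      have h1 := hB' p hp hpB Q hQ hpQ φ hφ 1 le_rfl
      rw [hsp p 1 hp le_rfl, pow_one] at h1
      rw [← h1, Complex.natCast_re]
  · let μ : (K ≃ₐ[IntermediateField.fixedField H] K) →* ℂˣ :=
      { toFun := fun h => lam ⟨h.restrictScalars ℚ, Pool.Agent.H84.RC.rs_mem H h⟩
        map_one' := by
          have e : (⟨(1 : K ≃ₐ[IntermediateField.fixedField H] K).restrictScalars ℚ,
            Pool.Agent.H84.RC.rs_mem H 1⟩ : H) = 1 := Subtype.ext (AlgEquiv.ext fun _ => rfl)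
          rw [e, map_one]
        map_mul' := fun g h => by
          have e : (⟨(g * h).restrictScalars ℚ, Pool.Agent.H84.RC.rs_mem H (g * h)⟩ : H) =
              ⟨g.restrictScalars ℚ, Pool.Agent.H84.RC.rs_mem H g⟩ *
                ⟨h.restrictScalars ℚ, Pool.Agent.H84.RC.rs_mem H h⟩ :=
            Subtype.ext (AlgEquiv.ext fun _ => rfl)
          rw [e, map_mul] }
    have hμ : μ ≠ 1 := by
      intro h1
      refine hl (MonoidHom.ext fun h => ?_)
      obtain ⟨g, hg⟩ := surj H h.1 h.2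
      have h2 : μ g = lam h := congrArg lam (Subtype.ext hg)
      rw [← h2, h1]
      rfl
    obtain ⟨χ, B, -, hB⟩ := hRC1 (IntermediateField.fixedField H) K μ
    obtain ⟨B', hB'⟩ := hRC2 K H lam χ B (fun P hP hP0 hp h _ hF => hB P hP hP0 hp h hF)
    obtain ⟨⟨C, hC⟩, -, l, hlim⟩ := hLGL (IntermediateField.fixedField H) χ
    obtain ⟨hnt, c, hc, hev⟩ := hNV1 (IntermediateField.fixedField H) K μ χ B hμ hB
    obtain ⟨a, ha⟩ := hH1L (IntermediateField.fixedField H) χ hnt
    have hC' : ∀ p : Nat.Primes, |(spc χ p 1).re| ≤ C := fun p =>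
      (Complex.abs_re_le_norm _).trans (hC p)
    refine ⟨fun p => (spc χ p 1).re, B', ⟨C, hC'⟩, ?_, ?_⟩
    · rw [if_neg hl]
      have h3 : Tendsto (fun s : ℝ => ‖Lc χ s‖) (𝓝[>] 1) (𝓝 ‖a‖) := ha.norm
      have h4 : c ≤ ‖a‖ := ge_of_tendsto h3 hev
      have h5 : Tendsto (fun s : ℝ => Real.log ‖Lc χ s‖) (𝓝[>] 1) (𝓝 (Real.log ‖a‖)) :=
        h3.log (hc.trans_le h4).ne'
      refine mean_zero _ C (l + Real.log ‖a‖) hC' ?_
      refine (hlim.add h5).congr fun s => ?_
      ring
    · intro p hp hpB Q hQ hpQ φ hφ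
      have h1 := hB' p hp hpB Q hQ hpQ φ hφ 1 le_rfl
      rw [pow_one] at h1
      rw [← h1]

end Pool.Agent.H3.RC
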