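import Pool.Agent.H28.RC.Targets4
import Pool.Agent.H28.RC.Basic
import Pool.Agent.H13.RC.SEC

/-!
# Module NV1: the value at `1` is not zero
-/

set_option autoImplicit false

open NumberField Filter Topology

namespace Pool.Agent.H3.RC

open Pool.Agent.H28.RC

section

variable {F : Type} [Field F] [NumberField F]

lemma finite_above (m : Ideal (𝓞 F)) (hm : m ≠ ⊥) : {P : Ideal (𝓞 F) | m ≤ P}.Finite := by
  refine (Ideal.finite_setOfPred_absNorm_le (S := 𝓞 F) (Ideal.absNorm m)).subset fun P hP => ?_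
  have h1 : Ideal.absNorm P ∣ Ideal.absNorm m := Ideal.absNorm_dvd_absNorm_of_le hP
  refine Nat.le_of_dvd (Nat.pos_of_ne_zero fun h => hm ?_) h1
  exact Ideal.absNorm_eq_zero_iff.1 h

lemma finite_bad (B : Finset ℕ) :
    {P : Ideal (𝓞 F) | ∃ p : ℕ, p.Prime ∧ p ∈ B ∧ (p : 𝓞 F) ∈ P}.Finite := by
  have h1 : {P : Ideal (𝓞 F) | ∃ p : ℕ, p.Prime ∧ p ∈ B ∧ (p : 𝓞 F) ∈ P} ⊆
      ⋃ p ∈ B, {P : Ideal (𝓞 F) | p.Prime ∧ (p : 𝓞 F) ∈ P} := by
    rintro P ⟨p, h1, h2, h3⟩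
    simp only [Set.mem_iUnion]
    exact ⟨p, h2, h1, h3⟩
  refine (Set.Finite.biUnion B.finite_toSet fun p _ => ?_).subset h1
  by_cases hp : p.Prime
  · refine (finite_above (F := F) (Ideal.span {(p : 𝓞 F)}) ?_).subset ?_
    · rw [Ne, Ideal.span_singleton_eq_bot]
      exact_mod_cast hp.ne_zero
    · rintro P ⟨-, h⟩
      exact (Ideal.span_singleton_le_iff_mem P).2 h
  · refine Set.Finite.subset Set.finite_empty ?_
    rintro P ⟨h, -⟩
    exact absurd h hp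

/-- two bounded functions which agree at almost all primes -/
lemma agree (hPRC : T_PRC) {w w' : Ideal (𝓞 F) → ℝ} {R : ℝ} (hw : ∀ P, |w P| ≤ R)
    (hw' : ∀ P, |w' P| ≤ R) (m : Ideal (𝓞 F)) (hm : m ≠ ⊥) (B : Finset ℕ)
    (h : ∀ P : Ideal (𝓞 F), P.IsPrime → P ≠ ⊥ → P ⊔ m = ⊤ →
      (∀ p : ℕ, p.Prime → p ∈ B → (p : 𝓞 F) ∉ P) → w P = w' P) :
    ∃ C : ℝ, ∀ s : ℝ, 1 < s → |PR w s - PR w' s| ≤ C := by
  refine hPRC F w w' R ({P | m ≤ P} ∪ {P | ∃ p : ℕ, p.Prime ∧ p ∈ B ∧ (p : 𝓞 F) ∈ P}) hw hw'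
    ((finite_above m hm).union (finite_bad B)) ?_
  intro P hP hP0 _ hA
  rw [Set.mem_union, not_or] at hA
  refine h P hP hP0 ?_ ?_
  · have hmax : P.IsMaximal := hP.isMaximal hP0
    exact (Ideal.isMaximal_def.1 hmax).2 (P ⊔ m) (left_lt_sup.2 hA.1)
  · intro p h1 h2 h3
    exact hA.2 ⟨p, h1, h2, h3⟩

lemma re_le (χ : RCC F) (P : Ideal (𝓞 F)) : |(χ.ψ P).re| ≤ 1 :=
  (Complex.abs_re_le_norm _).trans (rcc_norm_le χ P)

lemma pc_of (χ : RCC F) : PC χ.f χ.ψ where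
  ne := χ.f_ne
  one := χ.map_one
  mul := χ.map_mul
  bot := χ.map_bot
  norm := χ.norm_one
  zero := χ.eq_zero
  ray a ha h1 hv := by
    rw [χ.princ a ha h1]
    unfold sg
    refine Finset.prod_eq_one fun v _ => ?_
    rw [if_pos (hv v)]

lemma sum_pow {k : ℕ} (z : ℂ) (hz : z ^ k = 1) [Decidable (z = 1)] :
    ∑ j ∈ Finset.range k, z ^ j = if z = 1 then (k : ℂ) else 0 := by
  split_ifs with h
  · simp [h]
  · rw [geom_sum_eq h, hz, sub_self, zero_div]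

lemma pow_ne_one {G : Type} [Group G] [Finite G] (μ : G →* ℂˣ) {j : ℕ} (hj : 0 < j)
    (hk : j < μ.ker.index) : μ ^ j ≠ 1 := by
  intro h
  have hfin : Finite μ.range := Set.finite_range μ
  obtain ⟨⟨x, g, rfl⟩, hx⟩ := IsCyclic.exists_ofOrder_eq_natCard (α := μ.range)
  have h1 : (μ g) ^ j = 1 := by
    rw [← MonoidHom.pow_apply, h, MonoidHom.one_apply]
  have h2 : orderOf (⟨μ g, g, rfl⟩ : μ.range) ∣ j := by
    rw [orderOf_dvd_iff_pow_eq_one]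
    exact Subtype.ext h1
  rw [hx, ← Subgroup.index_ker] at h2
  exact absurd (Nat.le_of_dvd hj h2) (not_le.2 hk)

end

section

variable {F Ω : Type} [Field F] [NumberField F] [Field Ω] [NumberField Ω] [Algebra F Ω]
  [IsGalois F Ω]

lemma nontriv (hURY : T_URY) (hFRE : T_FRE) (hSUR : T_SUR) (ν : (Ω ≃ₐ[F] Ω) →* ℂˣ) (χ : RCC F)
    (B : Finset ℕ) (hν : ν ≠ 1)
    (hχ : ∀ P : Ideal (𝓞 F), P.IsPrime → P ≠ ⊥ → (∀ p : ℕ, p.Prime → p ∈ B → (p : 𝓞 F) ∉ P) →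
      ∀ g : Ω ≃ₐ[F] Ω, Fro P g → χ.ψ P = ((ν g : ℂˣ) : ℂ)) :
    ∃ I : Ideal (𝓞 F), χ.ψ I ≠ 0 ∧ χ.ψ I ≠ 1 := by
  obtain ⟨m, hm, hUR⟩ := hURY F Ω
  obtain ⟨-, hF2, -, -⟩ := hFRE F Ω
  set b : ℕ := ∏ p ∈ B.filter Nat.Prime, p with hb
  have hb0 : b ≠ 0 := Finset.prod_ne_zero_iff.2 fun p hp => (Finset.mem_filter.1 hp).2.ne_zero
  have hm0 : m * Ideal.span {(b : 𝓞 F)} ≠ ⊥ := by
    refine mul_ne_zero hm ?_
    rw [Ne, Ideal.zero_eq_bot, Ideal.span_singleton_eq_bot]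
    exact_mod_cast hb0
  have hUR' : UR Ω (m * Ideal.span {(b : 𝓞 F)}) := by
    intro Q hQ hQ0 h g hg
    refine hUR Q hQ hQ0 ?_ g hg
    refine top_le_iff.1 ?_
    rw [← h]
    exact sup_le_sup_left Ideal.mul_le_left _
  by_contra hcon
  push Not at hcon
  refine hν (hSUR F Ω _ ν hm0 hUR' ?_)
  intro P hP g hg
  obtain ⟨hPp, hP0⟩ := hF2 P g hg
  have h5 := hχ P hPp hP0 ?_ g hg
  · have h6 : χ.ψ P ≠ 0 := by
      rw [h5]
      exact Units.ne_zero _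
    have h7 := hcon P h6
    rw [h5] at h7
    exact Units.ext h7
  · intro p hp hpB hmem
    have h8 : p ∣ b := Finset.dvd_prod_of_mem (fun p => p) (Finset.mem_filter.2 ⟨hpB, hp⟩)
    have h9 : (b : 𝓞 F) ∈ P := by
      obtain ⟨c, hc⟩ := h8
      rw [hc, Nat.cast_mul]
      exact P.mul_mem_right _ hmem
    have h10 : m * Ideal.span {(b : 𝓞 F)} ≤ P :=
      Ideal.mul_le_right.trans ((Ideal.span_singleton_le_iff_mem P).2 h9)
    rw [sup_eq_left.2 h10] at hP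
    exact hPp.ne_top hP

open scoped Classical in
/-- the indicator function of the primes with Frobenius elements in `N` -/
noncomputable def ind (m : Ideal (𝓞 F)) (N : Subgroup (Ω ≃ₐ[F] Ω)) (P : Ideal (𝓞 F)) : ℝ :=
  if P ⊔ m = ⊤ ∧ ∃ g ∈ N, Fro P g then 1 else 0

omit [IsGalois F Ω] in
lemma abs_ind (m : Ideal (𝓞 F)) (N : Subgroup (Ω ≃ₐ[F] Ω)) (P : Ideal (𝓞 F)) :
    |ind m N P| ≤ 1 := by
  unfold ind
  split_ifs <;> simp

/-- the sum of the powers of the character -/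
lemma sum_ind (hFRE : T_FRE) (μ : (Ω ≃ₐ[F] Ω) →* ℂˣ) (m : Ideal (𝓞 F)) (hUR : UR Ω m)
    {P : Ideal (𝓞 F)} (hPm : P ⊔ m = ⊤) {g : Ω ≃ₐ[F] Ω} (hg : Fro P g) :
    ∑ j ∈ Finset.range μ.ker.index, (((μ ^ j) g : ℂˣ) : ℂ).re =
      μ.ker.index * ind m μ.ker P := by
  classical
  obtain ⟨-, -, -, hF4⟩ := hFRE F Ω
  have h1 : ((μ g : ℂˣ) : ℂ) ^ μ.ker.index = 1 := by
    have h2 : g ^ μ.ker.index ∈ μ.ker := Subgroup.pow_index_mem μ.ker g
    rw [MonoidHom.mem_ker, map_pow] at h2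
    have h3 := congrArg Units.val h2
    simpa using h3
  have h4 := sum_pow _ h1
  have h5 : ∑ j ∈ Finset.range μ.ker.index, (((μ ^ j) g : ℂˣ) : ℂ).re =
      (∑ j ∈ Finset.range μ.ker.index, ((μ g : ℂˣ) : ℂ) ^ j).re := by
    rw [Complex.re_sum]
    refine Finset.sum_congr rfl fun j _ => ?_
    rw [MonoidHom.pow_apply, Units.val_pow_eq_pow_val]
  rw [h5, h4]
  unfold ind
  by_cases h : ((μ g : ℂˣ) : ℂ) = 1
  · have h6 : μ g = 1 := Units.ext h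
    rw [if_pos h, if_pos ⟨hPm, g, MonoidHom.mem_ker.2 h6, hg⟩]
    simp
  · rw [if_neg h, if_neg]
    · simp
    · rintro ⟨-, g', hg', hF⟩
      obtain ⟨x, hx⟩ := hF4 m P g g' hUR hPm hg hF
      refine h ?_
      have h7 : μ g' = μ g := by
        rw [hx, map_mul, map_mul, map_inv, mul_comm, ← mul_assoc, mul_inv_cancel, one_mul]
      rw [← h7, MonoidHom.mem_ker.1 hg', Units.val_one]

end

open scoped Classical in
theorem pf_NV1 : T_URY → T_FRE → T_PSU → T_PRC → T_LGT → T_LGE → T_LGN → T_SPL → T_SUR →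
    T_RC1 → T_NV1 := by
  intro hURY hFRE hPSU hPRC hLGT hLGE hLGN hSPL hSUR hRC1 F Ω _ _ _ _ _ _ μ χ B hμ hχ
  refine ⟨nontriv hURY hFRE hSUR μ χ B hμ hχ, ?_⟩
  obtain ⟨m, hm, hUR⟩ := hURY F Ω
  obtain ⟨hF1, -, -, -⟩ := hFRE F Ω
  set k : ℕ := μ.ker.index with hk
  choose X BX hX1 hX using fun j : ℕ => hRC1 F Ω (μ ^ j)
  set w : ℕ → Ideal (𝓞 F) → ℝ := fun j P => ((X j).ψ P).re with hw
  have hwB : ∀ j P, |w j P| ≤ 1 := fun j P => re_le (X j) P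
  -- the total sum
  obtain ⟨Ca, hCa⟩ := agree (F := F) hPRC (w := fun P => ∑ j ∈ Finset.range k, w j P)
    (w' := fun P => (k : ℝ) * ind m μ.ker P) (R := k)
    (fun P => (Finset.abs_sum_le_sum_abs _ _).trans
      ((Finset.sum_le_sum fun j _ => hwB j P).trans (by simp)))
    (fun P => by
      rw [abs_mul, abs_of_nonneg (Nat.cast_nonneg k)]
      exact mul_le_of_le_one_right (Nat.cast_nonneg k) (abs_ind m μ.ker P))
    m hm ((Finset.range k).biUnion BX) (by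
      intro P hP hP0 hPm hB
      obtain ⟨g, hg⟩ := hF1 P hP hP0
      rw [hk, ← sum_ind hFRE μ m hUR hPm hg]
      refine Finset.sum_congr rfl fun j hj => ?_
      have h1 := hX j P hP hP0 (fun p hp hpB => hB p hp (Finset.mem_biUnion.2 ⟨j, hj, hpB⟩)) g hg
      simp only [hw]
      rw [h1])
  -- the term `0`
  obtain ⟨C0, hC0⟩ := agree (F := F) hPRC (w := w 0) (w' := fun _ => 1) (R := 1) (hwB 0)
    (fun P => by simp) m hm (BX 0) (by
      intro P hP hP0 hPm hB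
      obtain ⟨g, hg⟩ := hF1 P hP hP0
      have h1 := hX 0 P hP hP0 hB g hg
      simp only [hw]
      rw [h1, MonoidHom.pow_apply, pow_zero]
      simp)
  -- the term `1`
  obtain ⟨C1, hC1⟩ := agree (F := F) hPRC (w := w 1) (w' := fun P => (χ.ψ P).re) (R := 1) (hwB 1)
    (fun P => re_le χ P) m hm (B ∪ BX 1) (by
      intro P hP hP0 hPm hB
      obtain ⟨g, hg⟩ := hF1 P hP hP0
      have h1 := hX 1 P hP hP0 (fun p hp hpB => hB p hp (Finset.mem_union_right _ hpB)) g hg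
      have h2 := hχ P hP hP0 (fun p hp hpB => hB p hp (Finset.mem_union_left _ hpB)) g hg
      simp only [hw]
      rw [h1, h2, MonoidHom.pow_apply, pow_one])
  -- the other terms
  have hcj : ∀ j : ℕ, ∃ C : ℝ, 0 < j → j < k → ∀ᶠ s : ℝ in 𝓝[>] 1, PR (w j) s ≤ C := by
    intro j
    by_cases h : 0 < j ∧ j < k
    · obtain ⟨I, hI0, hI1⟩ := nontriv hURY hFRE hSUR (μ ^ j) (X j) (BX j)
        (pow_ne_one μ h.1 h.2) (hX j)
      obtain ⟨C, hC⟩ := hLGN F (X j).f (X j).ψ (pc_of (X j)) ⟨I, fun h0 => hI0 (by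
        rw [h0, (X j).map_bot]), by
          by_contra h0
          exact hI0 ((X j).eq_zero I h0), hI1⟩
      exact ⟨C, fun _ _ => hC⟩
    · exact ⟨0, fun h1 h2 => absurd ⟨h1, h2⟩ h⟩
  choose D hD using hcj
  obtain ⟨Cl, hCl⟩ := hLGT F
  obtain ⟨Cs, hCs⟩ : ∃ C : ℝ, ∀ᶠ s : ℝ in 𝓝[>] 1,
      |(k : ℝ) * PR (ind m μ.ker) s - Real.log (1 / (s - 1))| ≤ C := by
    obtain ⟨C, hC⟩ := hSPL F Ω m μ.ker inferInstance hm hUR
    refine ⟨C, hC.mono fun s hs => ?_⟩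
    unfold ind
    convert hs
  obtain ⟨Ce, hCe⟩ := hLGE F χ
  have hk0 : k ≠ 0 := by
    rw [hk]
    exact Subgroup.index_ne_zero_of_finite
  have hk1 : k ≠ 1 := by
    intro h
    rw [hk, Subgroup.index_eq_one] at h
    refine hμ (MonoidHom.ext fun g => ?_)
    have : g ∈ μ.ker := by
      rw [h]
      exact Subgroup.mem_top g
    exact MonoidHom.mem_ker.1 this
  obtain ⟨n, hn⟩ : ∃ n, k = n + 2 := ⟨k - 2, by omega⟩
  have hD' : ∀ᶠ s : ℝ in 𝓝[>] 1, ∀ j ∈ Finset.range n, PR (w (j + 1 + 1)) s ≤ D (j + 1 + 1) := by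
    rw [Filter.eventually_all_finset]
    intro j hj
    have := Finset.mem_range.1 hj
    exact hD (j + 1 + 1) (by omega) (by omega)
  refine ⟨Real.exp (-(Cs + Ca + Cl + C0 + C1 + Ce + ∑ j ∈ Finset.range n, D (j + 1 + 1))),
    Real.exp_pos _, ?_⟩
  filter_upwards [hCl, hCs, hD', self_mem_nhdsWithin] with s e1 e2 e3 hs
  have hs' : (1 : ℝ) < s := hs
  set L := Real.log (1 / (s - 1)) with hL
  have a1 := abs_le.1 e1
  have a2 := abs_le.1 e2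
  have a3 := abs_le.1 (hCa s hs')
  have a4 := abs_le.1 (hC0 s hs')
  have a5 := abs_le.1 (hC1 s hs')
  obtain ⟨a6, a7⟩ := hCe s hs'
  have a8 := abs_le.1 a7
  have a9 : PR (fun P => ∑ j ∈ Finset.range k, w j P) s = ∑ j ∈ Finset.range k, PR (w j) s :=
    Pool.Agent.H13.RC.PR_sum hPSU (Finset.range k) w hwB hs'
  have a10 : PR (fun P => (k : ℝ) * ind m μ.ker P) s = (k : ℝ) * PR (ind m μ.ker) s :=
    Pool.Agent.H13.RC.PR_smul _ _ s
  have a11 : ∑ j ∈ Finset.range k, PR (w j) s =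
      ∑ j ∈ Finset.range n, PR (w (j + 1 + 1)) s + PR (w (0 + 1)) s + PR (w 0) s := by
    rw [hn, Finset.sum_range_succ', Finset.sum_range_succ']
  have a12 := Finset.sum_le_sum e3
  rw [zero_add] at a11
  rw [← Real.le_log_iff_exp_le (norm_pos_iff.2 a6)]
  linarith [a1.1, a1.2, a2.1, a2.2, a3.1, a3.2, a4.1, a4.2, a5.1, a5.2, a8.1, a8.2]

end Pool.Agent.H3.RC
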